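import Mathlib
import Pool.Agent.H31.Spread

set_option autoImplicit false
open Finset Pool.Agent.H31.Spread

namespace Pool.Agent.Results.MP_436edf_co.One

def Regular {n : ℕ} (A : Fin n → Fin n → Prop) [DecidableRel A] (k : ℕ) : Prop :=
  ∀ i, indeg A i = k ∧ outdeg A i = k

theorem result (n : ℕ) (A : Fin n → Fin n → Prop) [DecidableRel A] (hn : 3 ≤ n)
    (h0 : ∀ i, ¬ A i i) (hb : ∀ i, indeg A i = outdeg A i) (hs : spread A = 1) :
    4 ≤ n ∧ Even n ∧
      (Regular A ((n - 2) / 2) ∨ Regular (fun i j => i ≠ j ∧ ¬ A i j) ((n - 2) / 2)) := by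
  obtain h | ⟨-, a, b, h⟩ := main A (by omega) h0 hb hs.le
  · simp [h] at hs
  refine ⟨a, b, h.imp (fun h i => ⟨(hb i).trans (h i), h i⟩) fun h i => ?_⟩
  have k : ∀ p : Fin n → Prop, ∀ [DecidablePred p], ¬ p i → (univ.filter p).card = n / 2 →
      (univ.filter fun j => j ≠ i ∧ ¬ p j).card = (n - 2) / 2 := fun p _ c d => by
    have e := card_filter_add_card_filter_not (s := univ) p
    have f : (univ.filter fun j => j ≠ i ∧ ¬ p j) = (univ.filter fun j => ¬ p j).erase i := by
      ext; simp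
    rw [f, card_erase_of_mem (by simpa using c)]
    rw [card_fin] at e
    rw [Nat.even_iff] at b
    omega
  exact ⟨k (A · i) (h0 i) ((hb i).trans (h i)), by
    simpa only [outdeg, ne_comm (a := i)] using k (A i) (h0 i) (h i)⟩

end Pool.Agent.Results.MP_436edf_co.One
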